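import Pool.Agent.H218.ZW.Zero
import Pool.Agent.H218.ZW.Predict

/-!
# Several numbers with a simultaneous measure with separate denominators
-/

set_option autoImplicit false

namespace Pool.Agent.H218.ZO

open Finset Pool.Agent Pool.Agent.H218.ZW

/-- a simultaneous measure with separate denominators: rational numbers `P j / M j` do not approximate
all the numbers `z j`, `j ∈ A`, with an error below `c / (∏ M j) ^ E` -/
def OwnMeas (A : Finset ℕ) (z : ℕ → ℝ) (E : ℕ) (c : ℝ) : Prop :=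
  ∀ (M : ℕ → ℕ) (P : ℕ → ℤ), (∀ j, 0 < M j) →
    ∃ j ∈ A, c / (∏ i ∈ A, (M i : ℝ)) ^ E ≤ |z j - (P j : ℝ) / M j|

/-- common denominators -/
theorem OwnMeas.common {A : Finset ℕ} {z : ℕ → ℝ} {E : ℕ} {c : ℝ} (h : OwnMeas A z E c) :
    Meas A z (A.card * E) c := by
  intro a q hq
  obtain ⟨j, hj, h1⟩ := h (fun _ => q) a (fun _ => hq)
  refine ⟨j, hj, ?_⟩
  rw [Finset.prod_const, ← pow_mul] at h1
  exact h1

/-- **Near relations, each number with its own relations at its own scale.** -/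
theorem ownRel (A : Finset ℕ) (z : ℕ → ℝ) (E : ℕ) (hE : 1 ≤ E) (c : ℝ) (hc : 0 < c) (h : OwnMeas A z E c)
    (r : ℕ → ℕ) :
    ∃ c' : ℝ, 0 < c' ∧ ∀ (t : ∀ j, Fin (r j) → ℝ) (X : ℕ → ℝ), (∀ j, 1 ≤ X j) →
      ∀ (q : ∀ j, Fin (r j + 1) → ℤ) (e : ∀ j, Fin (r j + 1) → Fin (r j) → ℤ),
        (∀ j ∈ A, LinearIndependent ℤ (fun k => (q j k, e j k))) →
        (∀ j ∈ A, ∀ k, |(q j k : ℝ)| ≤ X j) → (∀ j ∈ A, ∀ k i, |(e j k i : ℝ)| ≤ X j) →
        ∃ j ∈ A, ∃ k, ∀ p : ℤ, c' * X j / ∏ i ∈ A, X i ^ (E * (r i + 1)) ≤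
          |(q j k : ℝ) * z j + ∑ i, (e j k i : ℝ) * t j i - p| := by
  classical
  obtain ⟨R, hR⟩ : ∃ R : ℕ → ℝ, R = fun j => ((r j + 1 : ℕ) : ℝ) := ⟨_, rfl⟩
  have hR1 : ∀ j, 1 ≤ R j := fun j => by
    rw [hR]
    show (1 : ℝ) ≤ ((r j + 1 : ℕ) : ℝ)
    push_cast
    linarith [Nat.cast_nonneg (α := ℝ) (r j)]
  have hR0 : ∀ j, 0 < R j := fun j => by linarith [hR1 j]
  obtain ⟨C, hC⟩ : ∃ C : ℝ, C = ∏ i ∈ A, R i ^ (E * (r i + 1)) := ⟨_, rfl⟩
  have hC0 : 0 < C := by
    rw [hC]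
    exact Finset.prod_pos fun i _ => pow_pos (hR0 i) _
  refine ⟨c / (2 * C), by positivity, ?_⟩
  intro t X hX q e hv hqX heX
  have hX0 : ∀ j, 0 < X j := fun j => by linarith [hX j]
  by_contra hcon
  push Not at hcon
  obtain ⟨D, hD⟩ : ∃ D : ℝ, D = ∏ i ∈ A, X i ^ (E * (r i + 1)) := ⟨_, rfl⟩
  have hD0 : 0 < D := by
    rw [hD]
    exact Finset.prod_pos fun i _ => pow_pos (hX0 i) _
  rw [← hD] at hcon
  -- the combinations
  have key : ∀ j, ∃ (M : ℕ) (P : ℤ), 0 < M ∧ (j ∈ A → (M : ℝ) ≤ (R j * X j) ^ (r j + 1) ∧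
      |(M : ℝ) * z j - P| ≤ R j * ((R j * X j) ^ (r j) * (c / (2 * C) * X j / D))) := by
    intro j
    by_cases hj : j ∈ A
    · have hcj := hcon j hj
      choose p hp using hcj
      obtain ⟨l, hl0, hl, hlb⟩ := Pool.Agent.H267.OZ.exists_comb (X j) (hX j) (e j) (heX j hj)
      have hRj : ((r j + 1 : ℕ) : ℝ) = R j := by rw [hR]
      rw [hRj] at hlb
      obtain ⟨N, hN⟩ : ∃ N : ℤ, N = ∑ k, l k * q j k := ⟨_, rfl⟩
      have hN0 : N ≠ 0 := by
        intro hcon
        apply hl0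
        have hv' := hv j hj
        rw [Fintype.linearIndependent_iff] at hv'
        funext k
        refine hv' l ?_ k
        refine Prod.ext ?_ ?_
        · rw [Prod.fst_sum]
          simp only [Prod.smul_fst, smul_eq_mul, Prod.fst_zero]
          rw [← hN]
          exact hcon
        · rw [Prod.snd_sum]
          funext i
          rw [Finset.sum_apply]
          simp only [Prod.smul_snd, Pi.smul_apply, smul_eq_mul, Prod.snd_zero, Pi.zero_apply]
          exact hl i
      have hNb : |(N : ℝ)| ≤ (R j * X j) ^ (r j + 1) := by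
        rw [hN]
        push_cast
        calc |∑ k, (l k : ℝ) * (q j k : ℝ)| ≤ ∑ k, |(l k : ℝ) * (q j k : ℝ)| :=
              Finset.abs_sum_le_sum_abs _ _
          _ ≤ ∑ _k : Fin (r j + 1), (R j * X j) ^ (r j) * X j := by
              refine Finset.sum_le_sum fun k _ => ?_
              rw [abs_mul]
              have h1 := hqX j hj k
              have h2 := hlb k
              have h3 := hR0 j
              have h4 := hX0 j
              gcongr
          _ = (R j * X j) ^ (r j + 1) := by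
              rw [Finset.sum_const, Finset.card_univ, Fintype.card_fin, nsmul_eq_mul, hRj]
              ring
      have hsum : (N : ℝ) * z j - ((∑ k, l k * p k : ℤ) : ℝ) =
          ∑ k, (l k : ℝ) * ((q j k : ℝ) * z j + ∑ i, (e j k i : ℝ) * t j i - p k) := by
        have h1 : ∑ k, (l k : ℝ) * ∑ i, (e j k i : ℝ) * t j i = 0 := by
          simp only [Finset.mul_sum]
          rw [Finset.sum_comm]
          refine Finset.sum_eq_zero fun i _ => ?_
          have h2 : ∑ k, (l k : ℝ) * ((e j k i : ℝ) * t j i) =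
              (∑ k, (l k : ℝ) * (e j k i : ℝ)) * t j i := by
            rw [Finset.sum_mul]
            exact Finset.sum_congr rfl fun k _ => by ring
          rw [h2]
          have h4 : ∑ k, (l k : ℝ) * (e j k i : ℝ) = 0 := by exact_mod_cast hl i
          rw [h4, zero_mul]
        have h2 : ∑ k, (l k : ℝ) * ((q j k : ℝ) * z j + ∑ i, (e j k i : ℝ) * t j i - p k) =
            ∑ k, (l k : ℝ) * (q j k : ℝ) * z j + ∑ k, (l k : ℝ) * ∑ i, (e j k i : ℝ) * t j i -
              ∑ k, (l k : ℝ) * (p k : ℝ) := by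
          rw [← Finset.sum_add_distrib, ← Finset.sum_sub_distrib]
          exact Finset.sum_congr rfl fun k _ => by ring
        rw [h2, h1, hN, ← Finset.sum_mul]
        push_cast
        ring
      have hB0 : 0 < c / (2 * C) * X j / D := by
        have := hX0 j
        positivity
      have hup : |(N : ℝ) * z j - ((∑ k, l k * p k : ℤ) : ℝ)| ≤
          R j * ((R j * X j) ^ (r j) * (c / (2 * C) * X j / D)) := by
        rw [hsum]
        calc |∑ k, (l k : ℝ) * ((q j k : ℝ) * z j + ∑ i, (e j k i : ℝ) * t j i - p k)|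
            ≤ ∑ k, |(l k : ℝ) * ((q j k : ℝ) * z j + ∑ i, (e j k i : ℝ) * t j i - p k)| :=
              Finset.abs_sum_le_sum_abs _ _
          _ ≤ ∑ _k : Fin (r j + 1), (R j * X j) ^ (r j) * (c / (2 * C) * X j / D) := by
              refine Finset.sum_le_sum fun k _ => ?_
              rw [abs_mul]
              have h2 := hlb k
              have h3 := (hp k).le
              have h4 := hR0 j
              have h5 := hX0 j
              gcongr
          _ = _ := by
              rw [Finset.sum_const, Finset.card_univ, Fintype.card_fin, nsmul_eq_mul, hRj]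
      have hNn : 0 < N.natAbs := Int.natAbs_pos.2 hN0
      have hNr : ((N.natAbs : ℕ) : ℝ) = |(N : ℝ)| := by
        rw [← Int.cast_natCast, Int.natCast_natAbs, Int.cast_abs]
      rcases lt_or_gt_of_ne hN0 with hneg | hpos
      · refine ⟨N.natAbs, -(∑ k, l k * p k), hNn, fun _ => ⟨by rw [hNr]; exact hNb, ?_⟩⟩
        have h1 : ((N.natAbs : ℕ) : ℝ) = -(N : ℝ) := by
          rw [hNr, abs_of_neg (by exact_mod_cast hneg)]
        rw [h1]
        refine le_trans (le_of_eq ?_) hup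
        rw [← abs_neg]
        congr 1
        push_cast
        ring
      · refine ⟨N.natAbs, ∑ k, l k * p k, hNn, fun _ => ⟨by rw [hNr]; exact hNb, ?_⟩⟩
        have h1 : ((N.natAbs : ℕ) : ℝ) = (N : ℝ) := by
          rw [hNr, abs_of_pos (by exact_mod_cast hpos)]
        rw [h1]
        exact hup
    · exact ⟨1, 0, one_pos, fun h => absurd h hj⟩
  choose M P hM hMP using key
  obtain ⟨j, hj, h1⟩ := h M P hM
  obtain ⟨h2, h3⟩ := hMP j hj
  have hMj : (0 : ℝ) < M j := by exact_mod_cast hM j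
  have h4 : |z j - (P j : ℝ) / M j| = |(M j : ℝ) * z j - P j| / M j := by
    rw [eq_div_iff hMj.ne', ← abs_of_pos hMj, ← abs_mul, abs_of_pos hMj]
    congr 1
    field_simp
  rw [h4, div_le_div_iff₀ (pow_pos (Finset.prod_pos fun i _ => by exact_mod_cast hM i) _) hMj] at h1
  obtain ⟨F, rfl⟩ : ∃ F, E = F + 1 := ⟨E - 1, by omega⟩
  obtain ⟨V, hV⟩ : ∃ V : ℝ, V = |(M j : ℝ) * z j - P j| := ⟨_, rfl⟩
  rw [← hV] at h1 h3
  have hV0 : 0 ≤ V := by rw [hV]; exact abs_nonneg _
  -- `c M_j ≤ V (∏ M)^(F+1)`, hence `c ≤ V M_j ^ F (∏' M)^(F+1)`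
  have h5 : c ≤ V * ((M j : ℝ) ^ F * (∏ i ∈ A.erase j, (M i : ℝ)) ^ (F + 1)) := by
    have h6 : c * (M j : ℝ) ≤ (V * ((M j : ℝ) ^ F * (∏ i ∈ A.erase j, (M i : ℝ)) ^ (F + 1))) *
        (M j : ℝ) := by
      refine h1.trans (le_of_eq ?_)
      rw [← Finset.mul_prod_erase A _ hj]
      ring
    exact le_of_mul_le_mul_right h6 hMj
  obtain ⟨U, hU⟩ : ∃ U : ℕ → ℝ, U = fun i => (R i * X i) ^ (r i + 1) := ⟨_, rfl⟩
  have hU0 : ∀ i, 0 < U i := fun i => by
    rw [hU]
    exact pow_pos (mul_pos (hR0 i) (hX0 i)) _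
  have h7 : (∏ i ∈ A.erase j, (M i : ℝ)) ≤ ∏ i ∈ A.erase j, U i := by
    refine Finset.prod_le_prod (fun i _ => by positivity) fun i hi => ?_
    rw [hU]
    exact (hMP i (Finset.mem_of_mem_erase hi)).1
  have h8 : (M j : ℝ) ≤ U j := by
    rw [hU]
    exact h2
  have h9 : 0 ≤ ∏ i ∈ A.erase j, (M i : ℝ) := Finset.prod_nonneg fun i _ => by positivity
  have h10 : c ≤ V * (U j ^ F * (∏ i ∈ A.erase j, U i) ^ (F + 1)) := by
    refine h5.trans ?_
    have h9' : 0 ≤ U j ^ F := pow_nonneg (hU0 j).le F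
    gcongr
  have h11 : c * U j ≤ V * (∏ i ∈ A, U i) ^ (F + 1) := by
    rw [← Finset.mul_prod_erase A U hj]
    calc c * U j ≤ V * (U j ^ F * (∏ i ∈ A.erase j, U i) ^ (F + 1)) * U j :=
          mul_le_mul_of_nonneg_right h10 (hU0 j).le
      _ = _ := by ring
  have h12 : (∏ i ∈ A, U i) ^ (F + 1) = C * D := by
    rw [hC, hD, ← Finset.prod_mul_distrib, ← Finset.prod_pow]
    refine Finset.prod_congr rfl fun i _ => ?_
    rw [hU]
    show ((R i * X i) ^ (r i + 1)) ^ (F + 1) = _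
    rw [← mul_pow, ← pow_mul, mul_comm (r i + 1)]
  rw [h12] at h11
  have h13 : V * X j ≤ U j * (c / (2 * C) * X j / D) := by
    have h14 : V * X j ≤ (R j * ((R j * X j) ^ (r j) * (c / (2 * C) * X j / D))) * X j :=
      mul_le_mul_of_nonneg_right h3 (hX0 j).le
    refine h14.trans (le_of_eq ?_)
    rw [hU]
    ring
  have h15 : c * U j * X j ≤ U j * (c / 2) * X j := by
    calc c * U j * X j ≤ V * (C * D) * X j := mul_le_mul_of_nonneg_right h11 (hX0 j).le
      _ = (V * X j) * (C * D) := by ring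
      _ ≤ (U j * (c / (2 * C) * X j / D)) * (C * D) :=
          mul_le_mul_of_nonneg_right h13 (by positivity)
      _ = _ := by field_simp
  have h16 : 0 < U j * X j := mul_pos (hU0 j) (hX0 j)
  nlinarith



/-- **Finite-state prediction.** -/
theorem predictOwn (A : Finset ℕ) (hA : A.Nonempty) (z : ℕ → ℝ) (E : ℕ) (c : ℝ) (hc : 0 < c)
    (h : OwnMeas A z E c) (m : ℕ) (hm : m = A.card * E) (hm1 : 1 < m) :
    ∃ C : ℝ, ∀ (b : ℕ → ℕ) (Q : ℕ → Type) [∀ j, Fintype (Q j)] (M : ∀ j, Machine (Q j)) (N : ℕ → ℕ)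
      (t : ℝ), (∀ j, 2 ≤ b j) → 0 < t → (∀ j ∈ A, t ≤ N j * Real.log (b j)) →
      (Real.log t - Real.log (∑ j ∈ A, (Fintype.card (Q j) : ℝ) * Real.log (b j))) /
        Real.log m - C ≤ ((∑ j ∈ A, (M j).errors (b j) (z j) (N j) : ℕ) : ℝ) := by
  classical
  have : Nonempty A := hA.to_subtype
  obtain ⟨D, hD⟩ : ∃ D : ℝ, D = max (-Real.log c) 0 := ⟨_, rfl⟩
  have hD0 : 0 ≤ D := by rw [hD]; exact le_max_right _ _
  have hDc : Real.exp (-D) ≤ c := by
    calc Real.exp (-D) ≤ Real.exp (Real.log c) := by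
          apply Real.exp_le_exp.2
          have : -Real.log c ≤ D := by rw [hD]; exact le_max_left _ _
          linarith
      _ = c := Real.exp_log hc
  have hlog2 : 0 < Real.log 2 := Real.log_pos (by norm_num)
  have hmR : (1 : ℝ) < m := by exact_mod_cast hm1
  have hlm : 0 < Real.log m := Real.log_pos hmR
  refine ⟨Real.log (1 + D / Real.log 2) / Real.log m +
    (1 + Real.log (((E : ℝ) + 2) / (m - 1)) / Real.log m), ?_⟩
  intro b Q _ M N t hb ht hN
  have hcard : (Fintype.card A : ℝ) * (E : ℝ) = m := by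
    rw [Fintype.card_coe, hm]; push_cast; ring
  have hJ : V11015.FS.Joint (fun i : A => z i) (E : ℝ) D := by
    intro q p hq
    obtain ⟨Mq, hMq⟩ : ∃ Mq : ℕ → ℕ, Mq = fun j => if hj : j ∈ A then q ⟨j, hj⟩ else 1 := ⟨_, rfl⟩
    obtain ⟨P, hP⟩ : ∃ P : ℕ → ℤ, P = fun j => if hj : j ∈ A then p ⟨j, hj⟩ else 0 := ⟨_, rfl⟩
    have hMpos : ∀ j, 0 < Mq j := by
      intro j
      rw [hMq]
      by_cases hj : j ∈ A
      · simp only [hj, dif_pos]
        exact hq ⟨j, hj⟩
      · simp only [hj, dif_neg, not_false_iff]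
        exact one_pos
    obtain ⟨j, hj, h1⟩ := h Mq P hMpos
    refine ⟨⟨j, hj⟩, ?_⟩
    have e1 : (Mq j : ℝ) = q ⟨j, hj⟩ := by rw [hMq]; simp only [hj, dif_pos]
    have e2 : (P j : ℝ) = p ⟨j, hj⟩ := by rw [hP]; simp only [hj, dif_pos]
    rw [e1, e2] at h1
    refine le_trans ?_ h1
    have e3 : (∏ i ∈ A, (Mq i : ℝ)) = ∏ i : A, (q i : ℝ) := by
      rw [← Finset.prod_coe_sort]
      refine Finset.prod_congr rfl fun i _ => ?_
      rw [hMq]
      simp only [i.2, dif_pos]
    rw [e3]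
    have e4 : ∏ i : A, (q i : ℝ) ^ (-(E : ℝ)) = ((∏ i : A, (q i : ℝ)) ^ E)⁻¹ := by
      rw [← Finset.prod_pow, ← Finset.prod_inv_distrib]
      refine Finset.prod_congr rfl fun i _ => ?_
      rw [Real.rpow_neg (Nat.cast_nonneg _), Real.rpow_natCast]
    rw [e4, ← div_eq_mul_inv]
    have hq0 : 0 < (∏ i : A, (q i : ℝ)) ^ E := by
      apply pow_pos
      exact Finset.prod_pos fun i _ => by exact_mod_cast hq i
    exact div_le_div_of_nonneg_right hDc hq0.le
  have hmain := V11015.FS.main (ι := A) (fun i : A => z i) (fun i : A => b i) (Q := fun i : A => Q i)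
    (fun i : A => (M i).next) (fun i : A => (M i).guess) (fun i : A => (M i).start)
    (fun i => hb i) (κ := (E : ℝ)) (D := D) (Nat.cast_nonneg E) hD0 (by rw [hcard]; exact hmR) hJ
    (fun i : A => N i) ht (fun i => hN i i.2)
  rw [hcard] at hmain
  have hsiz : V11015.FS.siz (fun i : A => b i) (fun i : A => Q i) =
      ∑ j ∈ A, (Fintype.card (Q j) : ℝ) * Real.log (b j) := by
    unfold V11015.FS.siz
    rw [Finset.sum_coe_sort A (fun j => (Fintype.card (Q j) : ℝ) * Real.log (b j))]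
  rw [hsiz] at hmain
  obtain ⟨S, hS⟩ : ∃ S : ℝ, S = ∑ j ∈ A, (Fintype.card (Q j) : ℝ) * Real.log (b j) := ⟨_, rfl⟩
  rw [← hS] at hmain ⊢
  have hS2 : Real.log 2 ≤ S := by
    obtain ⟨j, hj⟩ := hA
    have h1 : (Fintype.card (Q j) : ℝ) * Real.log (b j) ≤ S := by
      rw [hS]
      exact Finset.single_le_sum
        (f := fun j => (Fintype.card (Q j) : ℝ) * Real.log (b j)) (fun i _ =>
          mul_nonneg (Nat.cast_nonneg _) (V11015.FS.log_base_pos (hb i)).le) hj
    have : Nonempty (Q j) := ⟨(M j).start⟩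
    have h2 : (1 : ℝ) ≤ Fintype.card (Q j) := by exact_mod_cast Fintype.card_pos (α := Q j)
    have h3 : Real.log 2 ≤ Real.log (b j) := by
      apply Real.log_le_log (by norm_num)
      exact_mod_cast hb j
    nlinarith
  have hSpos : 0 < S := hlog2.trans_le hS2
  have h5 : Real.log (D + S) ≤ Real.log S + Real.log (1 + D / Real.log 2) := by
    rw [← Real.log_mul hSpos.ne' (by positivity)]
    apply Real.log_le_log (by positivity)
    have h6 : D ≤ S * (D / Real.log 2) := by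
      rw [mul_div_assoc', le_div_iff₀ hlog2]
      nlinarith
    linarith [mul_add S 1 (D / Real.log 2), mul_one S]
  have h7 : (∑ i : A, V60.FSP.err (M i).next (M i).guess (V60.FSP.dg (b i) (z i)) (M i).start 0 (N i))
      = ∑ j ∈ A, (M j).errors (b j) (z j) (N j) := by
    rw [← Finset.sum_coe_sort A (fun j => (M j).errors (b j) (z j) (N j))]
    exact Finset.sum_congr rfl fun i _ => (errors_eq _ _ _ _).symm
  rw [← h7]
  refine le_trans ?_ hmain
  have h8 : Real.log (D + S) / Real.log m ≤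
      (Real.log S + Real.log (1 + D / Real.log 2)) / Real.log m :=
    div_le_div_of_nonneg_right h5 hlm.le
  rw [add_div] at h8
  rw [sub_div, sub_div]
  linarith



end Pool.Agent.H218.ZO
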